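import Pool.Agent.Lib.MP_4d2d01_an.Main

open MeasureTheory Pool.Agent.Lib.MP_4d2d01_an

theorem Pool.Agent.Results.MP_4d2d01_an.NotAAP.result :
    ∃ K : Set ℝ, IsGeneric K ∧ volume K = 0 ∧ (∃ μ, IsEquilibriumMeasure K μ) ∧
      ∀ μ, IsEquilibriumMeasure K μ → (∃ a b, IsJacobi μ a b) ∧
        ∀ a b, IsJacobi μ a b → ¬ AsympAlmostPeriodic a b :=
  main_result
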